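import Pool.Agent.helper47.Vis.Defs

set_option autoImplicit false

/-!
# MP_6b3417_co, part III, module III-d: Lemma H and invariance under affine unimodular maps
-/

namespace Pool.Agent.helper42.Vis

open Pool.Agent.helper47.Vis

section Basis

variable {o u v : ℤ × ℤ}

lemma umapR_toR (o u v : ℤ × ℤ) (p : ℤ × ℤ) : umapR o u v (toR p) = toR (umap o u v p) := by
  ext <;> simp [umapR, umap, toR]

lemma det_real (h : IsBas u v) :
    ((u.1 : ℝ) * v.2 - u.2 * v.1) * ((u.1 : ℝ) * v.2 - u.2 * v.1) = 1 := by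
  have h' : (u.1 * v.2 - u.2 * v.1) * (u.1 * v.2 - u.2 * v.1) = 1 := by
    rcases h with h | h <;> rw [h] <;> norm_num
  exact_mod_cast h'

lemma umapR_inj (h : IsBas u v) : Function.Injective (umapR o u v) := by
  intro p q hpq
  have e1 := congrArg Prod.fst hpq
  have e2 := congrArg Prod.snd hpq
  simp only [umapR] at e1 e2
  have hd := det_real h
  have f1 : (p.1 - q.1) * ((u.1 : ℝ) * v.2 - u.2 * v.1) = 0 := by
    linear_combination (v.2 : ℝ) * e1 - (v.1 : ℝ) * e2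
  have f2 : (p.2 - q.2) * ((u.1 : ℝ) * v.2 - u.2 * v.1) = 0 := by
    linear_combination (u.1 : ℝ) * e2 - (u.2 : ℝ) * e1
  have hne : ((u.1 : ℝ) * v.2 - u.2 * v.1) ≠ 0 := by
    intro h0; rw [h0] at hd; norm_num at hd
  ext
  · have := (mul_eq_zero.1 f1).resolve_right hne; linarith
  · have := (mul_eq_zero.1 f2).resolve_right hne; linarith

lemma umap_inj (h : IsBas u v) : Function.Injective (umap o u v) := by
  intro p q hpq
  apply toR_injective
  apply umapR_inj (o := o) h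
  rw [umapR_toR, umapR_toR, hpq]

lemma umap_surj (h : IsBas u v) : Function.Surjective (umap o u v) := by
  intro w
  rcases h with h | h
  · refine ⟨((w.1 - o.1) * v.2 - (w.2 - o.2) * v.1, (w.2 - o.2) * u.1 - (w.1 - o.1) * u.2), ?_⟩
    ext
    · simp only [umap]
      linear_combination (w.1 - o.1) * h
    · simp only [umap]
      linear_combination (w.2 - o.2) * h
  · refine ⟨(-((w.1 - o.1) * v.2 - (w.2 - o.2) * v.1),
      -((w.2 - o.2) * u.1 - (w.1 - o.1) * u.2)), ?_⟩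
    ext
    · simp only [umap]
      linear_combination -(w.1 - o.1) * h
    · simp only [umap]
      linear_combination -(w.2 - o.2) * h

lemma umapR_comb (p q : ℝ × ℝ) {a b : ℝ} (hab : a + b = 1) :
    umapR o u v (a • p + b • q) = a • umapR o u v p + b • umapR o u v q := by
  ext
  · simp only [umapR, Prod.fst_add, Prod.smul_fst, Prod.snd_add, Prod.smul_snd, smul_eq_mul]
    linear_combination -(o.1 : ℝ) * hab
  · simp only [umapR, Prod.fst_add, Prod.smul_fst, Prod.snd_add, Prod.smul_snd, smul_eq_mul]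
    linear_combination -(o.2 : ℝ) * hab

lemma umapR_mem_openSegment (h : IsBas u v) {p q r : ℝ × ℝ} :
    umapR o u v r ∈ openSegment ℝ (umapR o u v p) (umapR o u v q) ↔ r ∈ openSegment ℝ p q := by
  constructor
  · rintro ⟨a, b, ha, hb, hab, hx⟩
    refine ⟨a, b, ha, hb, hab, ?_⟩
    rw [← umapR_comb p q hab] at hx
    exact umapR_inj h hx
  · rintro ⟨a, b, ha, hb, hab, rfl⟩
    exact ⟨a, b, ha, hb, hab, (umapR_comb p q hab).symm⟩

lemma good_umap {G : Set (ℤ × ℤ)} (hG : Good G) (h : IsBas u v) : Good (umap o u v ⁻¹' G) := by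
  intro a ha b hb hab hl
  have hl' : SameLab (umap o u v a) (umap o u v b) := by
    obtain ⟨⟨x, hx⟩, ⟨y, hy⟩⟩ := hl
    refine ⟨⟨x * u.1 + y * v.1, ?_⟩, ⟨x * u.2 + y * v.2, ?_⟩⟩
    · simp only [umap]
      linear_combination u.1 * hx + v.1 * hy
    · simp only [umap]
      linear_combination u.2 * hx + v.2 * hy
  obtain ⟨c, hc, hcs⟩ := hG _ ha _ hb (fun he => hab (umap_inj h he)) hl'
  obtain ⟨c', rfl⟩ := umap_surj (o := o) h c
  refine ⟨c', hc, ?_⟩
  rw [← umapR_mem_openSegment (o := o) h, umapR_toR, umapR_toR, umapR_toR]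
  exact hcs

lemma umap_umap (o' u' v' p : ℤ × ℤ) : umap o u v (umap o' u' v' p) =
    umap (umap o u v o') (u'.1 * u.1 + u'.2 * v.1, u'.1 * u.2 + u'.2 * v.2)
      (v'.1 * u.1 + v'.2 * v.1, v'.1 * u.2 + v'.2 * v.2) p := by
  ext <;> simp only [umap] <;> ring

lemma isBas_comp {u' v' : ℤ × ℤ} (h : IsBas u v) (h' : IsBas u' v') :
    IsBas (u'.1 * u.1 + u'.2 * v.1, u'.1 * u.2 + u'.2 * v.2)
      (v'.1 * u.1 + v'.2 * v.1, v'.1 * u.2 + v'.2 * v.2) := by
  have key : (u'.1 * u.1 + u'.2 * v.1) * (v'.1 * u.2 + v'.2 * v.2) -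
      (u'.1 * u.2 + u'.2 * v.2) * (v'.1 * u.1 + v'.2 * v.1) =
      (u.1 * v.2 - u.2 * v.1) * (u'.1 * v'.2 - u'.2 * v'.1) := by ring
  unfold IsBas
  simp only
  rw [key]
  rcases h with h | h <;> rcases h' with h' | h' <;> rw [h, h'] <;> norm_num

lemma hasWindow_umap {G : Set (ℤ × ℤ)} {m : ℕ} (h : IsBas u v)
    (hw : HasWindow (umap o u v ⁻¹' G) m) : HasWindow G m := by
  obtain ⟨o', u', v', hb, hp⟩ := hw
  refine ⟨umap o u v o', _, _, isBas_comp h hb, fun p hpm => ?_⟩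
  have := hp p hpm
  rw [Set.mem_preimage, umap_umap (o := o)] at this
  exact this

lemma k5free_umap {G : Set (ℤ × ℤ)} (h : IsBas u v) {y' : ℝ × ℝ}
    (hK : K5free (insert (umapR o u v y') (toR '' G))) :
    K5free (insert y' (toR '' (umap o u v ⁻¹' G))) := by
  rintro ⟨f, hf, hs⟩
  apply hK
  refine ⟨fun i => umapR o u v (f i), fun i => ?_, fun i j hij => ⟨?_, ?_⟩⟩
  · rcases hf i with hi | ⟨c, hc, hi⟩
    · simp only [hi]; exact Set.mem_insert _ _
    · refine Or.inr ⟨umap o u v c, hc, ?_⟩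
      simp only [← hi, umapR_toR]
  · intro he
    exact (hs i j hij).1 (umapR_inj h he)
  · intro r hr hro
    have hr' : ∃ r' ∈ insert y' (toR '' (umap o u v ⁻¹' G)), umapR o u v r' = r := by
      rcases hr with hr | ⟨c, hc, hr⟩
      · exact ⟨y', Set.mem_insert _ _, hr.symm⟩
      · obtain ⟨c', rfl⟩ := umap_surj (o := o) h c
        exact ⟨toR c', Or.inr ⟨c', hc, rfl⟩, by rw [umapR_toR, hr]⟩
    obtain ⟨r', hr1, rfl⟩ := hr'
    exact (hs i j hij).2 r' hr1 ((umapR_mem_openSegment h).1 hro)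

end Basis

/-- the hypotheses of Lemma H -/
structure Cfg (M : ℕ) (G : Set (ℤ × ℤ)) (y : ℝ × ℝ) : Prop where
  fin : G.Finite
  good : Good G
  win : Box M ⊆ G
  noWin : ¬ HasWindow G (M + 1)
  k5 : K5free (insert y (toR '' G))

lemma Cfg.umap' {M : ℕ} {G : Set (ℤ × ℤ)} {y y' : ℝ × ℝ} (c : Cfg M G y) {o u v : ℤ × ℤ}
    (h : IsBas u v) (hbox : ∀ p ∈ Box M, umap o u v p ∈ Box M) (hy : umapR o u v y' = y) :
    Cfg M (umap o u v ⁻¹' G) y' where
  fin := c.fin.preimage (umap_inj h).injOn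
  good := good_umap c.good h
  win := fun p hp => c.win (hbox p hp)
  noWin := fun hw => c.noWin (hasWindow_umap h hw)
  k5 := by
    apply k5free_umap h
    rw [hy]; exact c.k5

/-- the statement of the gap lemma -/
def GapStmt : Prop := ∀ (P : Set (ℝ × ℝ)), P.Finite → K5free P → ∀ (M h : ℕ), 5 ≤ M →
    M ≤ h → toR '' Box M ⊆ P → ∀ y ∈ P,
    (∀ p ∈ P, p ≠ y → p ∈ Set.range toR) →
    (M : ℝ) * h ^ 2 + 2 * M < y.2 →
    ∃ z ∈ P, z ∈ convexHull ℝ (insert y (toR '' Box M)) ∧ (h : ℝ) < z.2 ∧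
      z.2 ≤ (M : ℝ) * h ^ 2 + 2 * M

/-- the statement of `fill` -/
def FillStmt : Prop := ∀ {M R K : ℕ}, Par M R K → ∀ (G : Set (ℤ × ℤ)), Good G → Box M ⊆ G →
    ∀ z ∈ G, Handled K (toR z) → ∀ s : ℝ, 0 ≤ s → s ≤ 3 / 4 →
    ∀ f : ℤ × ℤ, InS M z s (9 * R) f → f ∈ G

/-- the statement of `corridor_window` -/
def CorStmt : Prop := ∀ (M R : ℕ), 1 ≤ R → 1000 * R ≤ M → ∀ z : ℤ × ℤ, 1000 * (M : ℤ) ≤ z.2 →
    z.2 - M ≤ z.1 →
    ∃ o : ℤ × ℤ, ∃ k : ℤ, ∀ p ∈ Box (M + 1), ∃ s : ℝ, 0 ≤ s ∧ s ≤ 3 / 4 ∧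
      InS M z s (9 * R) (umap o (1, 0) (k, 1) p)

lemma par_R_pos {M R K : ℕ} (hp : Par M R K) : 1 ≤ R := by
  have h1 := hp.sieve
  have h2 := SQ_pos
  have h3 : 1 ≤ (128 * SQ) * (8 * K + 1) := Nat.succ_le_of_lt (by positivity)
  omega

lemma height_bound {M K : ℕ} (hM : 5 ≤ M) (hD : 10 ^ 6 * M ^ 10 ≤ 2 ^ K) :
    (M : ℝ) * ((1001 * M : ℕ) : ℝ) ^ 2 + 2 * M ≤ 2 ^ K := by
  have hD' : (10 : ℝ) ^ 6 * (M : ℝ) ^ 10 ≤ 2 ^ K := by exact_mod_cast hD
  have hM' : (5 : ℝ) ≤ M := by exact_mod_cast hM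
  have h7 : (5 : ℝ) ^ 7 ≤ (M : ℝ) ^ 7 := by gcongr
  have h3 : (0 : ℝ) ≤ (M : ℝ) ^ 3 := by positivity
  have h2 : (1 : ℝ) ≤ (M : ℝ) ^ 2 := one_le_pow₀ (by linarith)
  have e : (M : ℝ) ^ 10 = (M : ℝ) ^ 7 * (M : ℝ) ^ 3 := by ring
  rw [e] at hD'
  push_cast
  have h10 : (5 : ℝ) ^ 7 * (M : ℝ) ^ 3 ≤ (M : ℝ) ^ 7 * (M : ℝ) ^ 3 := by gcongr
  have hM3 : (M : ℝ) ≤ (M : ℝ) ^ 3 := by nlinarith
  nlinarith

theorem core (hgap : GapStmt) (hfill : FillStmt) (hcor : CorStmt) {M R K : ℕ} (hp : Par M R K)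
    (hM : 5 ≤ M) {G : Set (ℤ × ℤ)} {y : ℝ × ℝ} (c : Cfg M G y) (h2 : (2 : ℝ) ^ K < y.2)
    (h1 : y.2 ≤ y.1) : False := by
  have hhb := height_bound hM hp.D
  have hW : toR '' Box M ⊆ insert y (toR '' G) :=
    (Set.image_mono c.win).trans (Set.subset_insert _ _)
  obtain ⟨z, hz, hzc, hz1, hz2⟩ := hgap (insert y (toR '' G)) ((c.fin.image _).insert _) c.k5 M
    (1001 * M) hM (by omega) hW y (Set.mem_insert _ _)
    (fun p hp' hne => by
      rcases hp' with h | ⟨q, -, h⟩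
      · exact absurd h hne
      · exact ⟨q, h⟩) (lt_of_le_of_lt hhb h2)
  have hzG : z ∈ toR '' G := by
    rcases hz with h | h
    · rw [h] at hz2; linarith
    · exact h
  obtain ⟨w, hw, rfl⟩ := hzG
  have hdiag : -(M : ℝ) ≤ (toR w).1 - (toR w).2 := by
    have hconv : Convex ℝ {p : ℝ × ℝ | -(M : ℝ) ≤ p.1 - p.2} := by
      intro p hp' q hq a b ha hb hab
      simp only [Set.mem_ofPred_eq, Prod.fst_add, Prod.smul_fst, Prod.snd_add, Prod.smul_snd,
        smul_eq_mul] at hp' hq ⊢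
      nlinarith
    have hsub : insert y (toR '' Box M) ⊆ {p : ℝ × ℝ | -(M : ℝ) ≤ p.1 - p.2} := by
      intro p hp'
      rcases hp' with h | ⟨q, hq, h⟩
      · rw [h, Set.mem_ofPred_eq]
        have : (0 : ℝ) ≤ M := by positivity
        linarith
      · obtain ⟨q1, q2, q3, q4⟩ := hq
        rw [← h, Set.mem_ofPred_eq, toR_fst, toR_snd]
        have e1 : (0 : ℝ) ≤ q.1 := by exact_mod_cast q1
        have e2 : (q.2 : ℝ) ≤ M := by exact_mod_cast q4
        linarith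
    exact convexHull_min hsub hconv hzc
  rw [toR_fst, toR_snd] at hdiag
  rw [toR_snd] at hz1 hz2
  have i1 : 1001 * (M : ℤ) < w.2 := by
    have : ((1001 * M : ℕ) : ℝ) < w.2 := hz1
    push_cast at this
    exact_mod_cast this
  have i2 : w.2 - M ≤ w.1 := by
    have : ((w.2 - M : ℤ) : ℝ) ≤ w.1 := by push_cast; linarith
    exact_mod_cast this
  have hh : Handled K (toR w) := by
    right
    rw [toR_snd, abs_le]
    have i3 : (0 : ℝ) ≤ w.2 := by
      have : (0 : ℤ) ≤ w.2 := by omega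
      exact_mod_cast this
    constructor
    · have : (0 : ℝ) ≤ 2 ^ K := by positivity
      linarith
    · linarith
  obtain ⟨o, k, hok⟩ := hcor M R (par_R_pos hp) hp.MR w (by omega) i2
  apply c.noWin
  refine ⟨o, (1, 0), (k, 1), Or.inl (by simp), fun p hpm => ?_⟩
  obtain ⟨s, hs0, hs1, hin⟩ := hok p hpm
  exact hfill hp G c.good c.win w hw hh s hs0 hs1 _ hin

theorem core1 (hgap : GapStmt) (hfill : FillStmt) (hcor : CorStmt) {M R K : ℕ} (hp : Par M R K)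
    (hM : 5 ≤ M) {G : Set (ℤ × ℤ)} {y : ℝ × ℝ} (c : Cfg M G y) (h1 : (2 : ℝ) ^ K < y.1)
    (h2 : (2 : ℝ) ^ K < y.2) : False := by
  rcases le_total y.2 y.1 with h | h
  · exact core hgap hfill hcor hp hM c h2 h
  · have c' : Cfg M (umap (0, 0) (0, 1) (1, 0) ⁻¹' G) (y.2, y.1) := by
      refine c.umap' (Or.inr (by simp)) ?_ ?_
      · rintro p ⟨q1, q2, q3, q4⟩
        simp only [umap, Box, Set.mem_ofPred_eq]
        refine ⟨?_, ?_, ?_, ?_⟩ <;> linarith
      · ext <;> simp [umapR]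
    exact core hgap hfill hcor hp hM c' h1 h

theorem core2 (hgap : GapStmt) (hfill : FillStmt) (hcor : CorStmt) {M R K : ℕ} (hp : Par M R K)
    (hM : 5 ≤ M) {G : Set (ℤ × ℤ)} {y : ℝ × ℝ} (c : Cfg M G y) (h1 : (2 : ℝ) ^ K < y.1)
    (h2 : (2 : ℝ) ^ K < |y.2|) : False := by
  rcases le_total 0 y.2 with h | h
  · rw [abs_of_nonneg h] at h2
    exact core1 hgap hfill hcor hp hM c h1 h2
  · rw [abs_of_nonpos h] at h2
    have c' : Cfg M (umap (0, (M : ℤ)) (1, 0) (0, -1) ⁻¹' G) (y.1, M - y.2) := by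
      refine c.umap' (Or.inr (by simp)) ?_ ?_
      · rintro p ⟨q1, q2, q3, q4⟩
        simp only [umap, Box, Set.mem_ofPred_eq]
        refine ⟨?_, ?_, ?_, ?_⟩ <;> linarith
      · ext <;> simp [umapR]
    refine core1 hgap hfill hcor hp hM c' h1 ?_
    have : (0 : ℝ) ≤ M := by positivity
    simp only
    linarith

theorem core3 (hgap : GapStmt) (hfill : FillStmt) (hcor : CorStmt) {M R K : ℕ} (hp : Par M R K)
    (hM : 5 ≤ M) {G : Set (ℤ × ℤ)} {y : ℝ × ℝ} (c : Cfg M G y) (h1 : (2 : ℝ) ^ K < |y.1|)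
    (h2 : (2 : ℝ) ^ K < |y.2|) : False := by
  rcases le_total 0 y.1 with h | h
  · rw [abs_of_nonneg h] at h1
    exact core2 hgap hfill hcor hp hM c h1 h2
  · rw [abs_of_nonpos h] at h1
    have c' : Cfg M (umap ((M : ℤ), 0) (-1, 0) (0, 1) ⁻¹' G) (M - y.1, y.2) := by
      refine c.umap' (Or.inr (by simp)) ?_ ?_
      · rintro p ⟨q1, q2, q3, q4⟩
        simp only [umap, Box, Set.mem_ofPred_eq]
        refine ⟨?_, ?_, ?_, ?_⟩ <;> linarith
      · ext <;> simp [umapR]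
    refine core2 hgap hfill hcor hp hM c' ?_ h2
    have : (0 : ℝ) ≤ M := by positivity
    simp only
    linarith

/-- Lemma H, from the gap lemma, `fill` and `corridor_window`. -/
theorem lemH_of (hgap : GapStmt) (hfill : FillStmt) (hcor : CorStmt) {M R K : ℕ}
    (hp : Par M R K) (hM : 5 ≤ M) (G : Set (ℤ × ℤ)) (hfin : G.Finite)
    (hG : Good G) (hW : Box M ⊆ G) (hno : ¬ HasWindow G (M + 1)) (y : ℝ × ℝ)
    (hK : K5free (insert y (toR '' G))) : Handled K y := by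
  by_contra hc
  unfold Handled at hc
  push Not at hc
  exact core3 hgap hfill hcor hp hM ⟨hfin, hG, hW, hno, hK⟩ hc.1 hc.2

end Pool.Agent.helper42.Vis
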